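import Pool.Agent.Lib.P07318o.L2

/-!
# Shifted moments of the Riemann zeta function of every order, shifts on hyperplanes

Let `k = m + 2 ≥ 3`. The last shift is an affine function `κ + ν_1 a_1 + … + ν_m a_m` of the `m` free shifts, with all `ν_j ≠ 0` and
`∑ ν_j ≠ 1`; `a_0` and `κ` are arbitrary. The largest difference, over all `0 ≤ V ≤ T`, between the shifted `2k`-th moment
`∫_0^V ∏_j |ζ(1/2 + i (t + a_j))|² dt` and the integral of the main term (the terms without oscillation of the recipe of Conrey, Farmer,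
Keating, Rubinstein and Snaith) has mean square `O(T² (log T)^(k + ε))` over the free shifts.
-/

set_option autoImplicit false

namespace Pool.Agent.Results.MP_07318d_nt.HyperplaneShifts

open MeasureTheory Complex

/-- `e(θ) = exp(2π i θ)` -/
noncomputable def e (θ : ℝ) : ℂ := Complex.exp (2 * Real.pi * I * θ)

/-- The Euler factor at `p` of `A_k(z_1, …, z_k, z'_1, …, z'_k)` as in the problem file
(`z'_j` stands for `z_{k+j}`). -/
noncomputable def eulerFactor {k : ℕ} (z z' : Fin k → ℂ) (p : ℕ) : ℂ :=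
  (∏ l, ∏ j, (1 - (p : ℂ) ^ (-1 - z l + z' j))) *
    ∫ θ in (0:ℝ)..1, ∏ j, ((1 - e θ / (p : ℂ) ^ (1 / 2 + z j))⁻¹ *
      (1 - e (-θ) / (p : ℂ) ^ (1 / 2 - z' j))⁻¹)

/-- the Euler product `A_k` -/
noncomputable def A {k : ℕ} (z z' : Fin k → ℂ) : ℂ := ∏' p : Nat.Primes, eulerFactor z z' p

/-- the function `G = A_k ∏_{i,j} ζ(1 + z_i - z_{k+j})` -/
noncomputable def G {k : ℕ} (z z' : Fin k → ℂ) : ℂ :=
  A z z' * ∏ i, ∏ j, riemannZeta (1 + z i - z' j)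

/-- The main term at the heights `x_1, …, x_k`:
`(π i)^(-k) ∮_{|w_1| = 1/8} … ∮_{|w_k| = 1/8} G(w_1 + i x_1, …, w_k + i x_k, -w_1 + i x_1, …, -w_k + i x_k)
∏_j (x_j/2π)^(w_j) dw_j / w_j`, i.e. the sum of the residues of the recipe for the unshifted pairs
`(z_j, z_{k+j})` at the heights `x_j`. -/
noncomputable def mainTerm {k : ℕ} (x : Fin k → ℝ) : ℂ :=
  ((Real.pi * I) ^ k)⁻¹ * ∯ w in T(0, fun _ => 1 / 8),
    G (fun j => w j + x j * I) (fun j => -w j + x j * I) *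
      ∏ j, (((x j / (2 * Real.pi) : ℝ) : ℂ) ^ (w j) / w j)

/-- the shifts `a_0, a_1, …, a_m, κ + ν_1 a_1 + … + ν_m a_m` -/
noncomputable def shifts {m : ℕ} (ν : Fin m → ℝ) (κ a₀ : ℝ) (a : Fin m → ℝ) : Fin (m + 2) → ℝ :=
  Fin.snoc (α := fun _ => ℝ) (Fin.cons a₀ a : Fin (m + 1) → ℝ) (κ + ∑ j, ν j * a j)

theorem result :
    ∀ m : ℕ, 1 ≤ m → ∀ ν : Fin m → ℝ, (∀ j, ν j ≠ 0) → ∑ j, ν j ≠ 1 → ∀ δ ε : ℝ, 0 < δ → 0 < ε →
      ∃ C T₀ : ℝ, 0 < C ∧ 1 < T₀ ∧ ∀ T κ a₀ : ℝ, T₀ ≤ T → T ≤ a₀ → a₀ ≤ 2 * T →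
      ∫⁻ a in {a : Fin m → ℝ | (∀ j, T ≤ shifts ν κ a₀ a j ∧ shifts ν κ a₀ a j ≤ 2 * T) ∧
          ∀ i j, i ≠ j → T ^ δ ≤ |shifts ν κ a₀ a i - shifts ν κ a₀ a j|},
        (⨆ V ∈ Set.Icc 0 T, ‖∫ t in (0:ℝ)..V,
          (((∏ j, ‖riemannZeta (1 / 2 + ((t + shifts ν κ a₀ a j : ℝ) : ℂ) * I)‖ ^ 2 : ℝ) : ℂ) -
            mainTerm (fun j => t + shifts ν κ a₀ a j))‖ₑ) ^ 2 ≤
          ENNReal.ofReal (C * T ^ (m + 2) * Real.log T ^ ((m : ℝ) + 2 + ε)) ∧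
      volume {a : Fin m → ℝ | (∀ j, T ≤ shifts ν κ a₀ a j ∧ shifts ν κ a₀ a j ≤ 2 * T) ∧
          ∃ i j, i ≠ j ∧ |shifts ν κ a₀ a i - shifts ν κ a₀ a j| < T ^ δ} ≤
        ENNReal.ofReal (C * T ^ (m - 1) * T ^ δ) := by
  intro m hm ν hν hs δ ε hδ hε
  have hadm : Pool.Agent.P07318o.Adm (Fin.cons (1 - ∑ j, ν j) ν : Fin (m + 1) → ℝ) := by
    constructor
    · intro j
      refine Fin.cases ?_ (fun i => ?_) j
      · rw [Fin.cons_zero]
        exact sub_ne_zero.2 (Ne.symm hs)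
      · rw [Fin.cons_succ]
        exact hν i
    · rw [Fin.sum_univ_succ, Fin.cons_zero]
      simp only [Fin.cons_succ]
      ring
  obtain ⟨C, T₀, hC, hT₀, h⟩ := Pool.Agent.P07318o.l2_main hm _ hadm δ ε hδ hε
  obtain ⟨C', hC', h'⟩ := Pool.Agent.P07318o.sep_dm hm _ hadm
  refine ⟨C + C', T₀, by positivity, by linarith, fun T κ a₀ hT h1 h2 => ?_⟩
  have hT1 : 1 ≤ T := by linarith
  have hT0 : 0 < T := by linarith
  have hlog : 0 ≤ Real.log T := Real.log_nonneg hT1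
  have hx : ∀ a : Fin m → ℝ, shifts ν κ a₀ a =
      Pool.Agent.P07318o.xs (Fin.cons (1 - ∑ j, ν j) ν : Fin (m + 1) → ℝ) (κ - (1 - ∑ j, ν j) * a₀) a₀ a := by
    intro a
    unfold shifts Pool.Agent.P07318o.xs Pool.Agent.P07318o.lst
    congr 1
    rw [Fin.sum_univ_succ, Fin.cons_zero, Fin.cons_zero]
    simp only [Fin.cons_succ]
    ring
  simp only [hx]
  refine ⟨(h T _ a₀ hT h1 h2).trans (ENNReal.ofReal_le_ofReal ?_),
    (h' _ a₀ T (T ^ δ) hT1 (by positivity)).trans (ENNReal.ofReal_le_ofReal ?_)⟩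
  · have : 0 ≤ C' * T ^ (m + 2) * Real.log T ^ ((m : ℝ) + 2 + ε) := by positivity
    linarith
  · have : 0 ≤ C * T ^ (m - 1) * T ^ δ := by positivity
    linarith

end Pool.Agent.Results.MP_07318d_nt.HyperplaneShifts
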