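import Pool.Agent.Lib.P07318v.Bridge
import Pool.Agent.Lib.P07318v.EulerSS
import Pool.Agent.Lib.P07318v.FourAP
import Pool.Agent.Lib.P07318v.MTs

/-!
# Products of `2 d` factors `|ζ|²` along linear forms in `d` variables

Let `d ≥ 2` and let `L_1, …, L_{2d}` be linear forms in `d` variables with integer coefficients, any `d` of them linearly independent. The integral of
`∏_j |ζ(1/2 + i (κ_j + L_j x))|²` over any set `{x : a_j ≤ κ_j + L_j x ≤ b_j for all j}`, `T ≤ a_j ≤ b_j ≤ 2T`, `κ_j` real, is equal to the integral of an explicit main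
term (a sum over the multiplicative relations `∏_j q_j ^ (L_j) = 1` between positive rational numbers) up to `O(T^d (log T)^(d + ε))`.
For `κ = 0` the leading term is the singular series times the volume times `(log T)^(2d)`. Example: `d = 2`, four term progressions.
-/

set_option autoImplicit false

namespace Pool.Agent.Results.MP_07318d_nt.LinearPatterns

open MeasureTheory Complex

/-- numerator times denominator of a positive rational number -/
noncomputable def height (q : ℚ) : ℝ := (q.num : ℝ) * (q.den : ℝ)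

/-- the values of the forms: `y_j = κ_j + ∑_i L_{ji} x_i` -/
noncomputable def forms {k d : ℕ} (L : Fin k → Fin d → ℤ) (κ : Fin k → ℝ) (x : Fin d → ℝ) (j : Fin k) : ℝ :=
  κ j + ∑ i, (L j i : ℝ) * x i

/-- the tuples of positive rational numbers with `∏_j q_j ^ (L_{ji}) = 1` for all `i` -/
def Relations {k d : ℕ} (L : Fin k → Fin d → ℤ) : Set (Fin k → ℚ) :=
  {q | (∀ j, 0 < q j) ∧ ∀ i, ∏ j, q j ^ (L j i) = 1}

/-- the term of the tuple `q`: `∏_j h(q_j)^(-1/2) (log (y_j / (2 π h(q_j))) + 2 γ) q_j^(-i y_j)` -/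
noncomputable def term {k : ℕ} (q : Fin k → ℚ) (y : Fin k → ℝ) : ℂ :=
  ∏ j, ((((height (q j)) ^ (-(1 / 2) : ℝ) *
    (Real.log (y j / (2 * Real.pi * height (q j))) + 2 * Real.eulerMascheroniConstant) : ℝ) : ℂ) *
      cexp (-((y j * Real.log (q j) : ℝ) : ℂ) * I))

/-- the main term -/
noncomputable def mainTerm {k d : ℕ} (L : Fin k → Fin d → ℤ) (y : Fin k → ℝ) : ℂ :=
  ∑' q : Relations L, term q.1 y

/-- the singular series -/
noncomputable def singularSeries {k d : ℕ} (L : Fin k → Fin d → ℤ) : ℝ :=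
  ∑' q : Relations L, ∏ j, (height (q.1 j)) ^ (-(1 / 2) : ℝ)

theorem result :
    (∀ d : ℕ, 2 ≤ d → ∀ L : Fin (2 * d) → Fin d → ℤ,
      (∀ σ : Fin d → Fin (2 * d), Function.Injective σ → (Matrix.of fun i => L (σ i)).det ≠ 0) →
      (∀ y : Fin (2 * d) → ℝ, (∀ j, 0 < y j) → Summable fun q : Relations L => term q.1 y) ∧
      (∀ ε : ℝ, 0 < ε → ∃ C T₀ : ℝ, 0 < C ∧ 1 < T₀ ∧ ∀ (T : ℝ) (κ a b : Fin (2 * d) → ℝ), T₀ ≤ T →
        (∀ j, T ≤ a j ∧ a j ≤ b j ∧ b j ≤ 2 * T) →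
        ‖∫ x in {x : Fin d → ℝ | ∀ j, a j ≤ forms L κ x j ∧ forms L κ x j ≤ b j},
          (((∏ j, ‖riemannZeta (1 / 2 + (forms L κ x j : ℂ) * I)‖ ^ 2 : ℝ) : ℂ) - mainTerm L (forms L κ x))‖ ≤
          C * T ^ d * Real.log T ^ ((d : ℝ) + ε)) ∧
      (∃ C T₀ : ℝ, 0 < C ∧ 1 < T₀ ∧ ∀ (T : ℝ) (a b : Fin (2 * d) → ℝ), T₀ ≤ T →
        (∀ j, T ≤ a j ∧ a j ≤ b j ∧ b j ≤ 2 * T) →
        |(∫ x in {x : Fin d → ℝ | ∀ j, a j ≤ forms L 0 x j ∧ forms L 0 x j ≤ b j},
            ∏ j, ‖riemannZeta (1 / 2 + (forms L 0 x j : ℂ) * I)‖ ^ 2) -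
          singularSeries L * (volume {x : Fin d → ℝ | ∀ j, a j ≤ forms L 0 x j ∧ forms L 0 x j ≤ b j}).toReal *
            Real.log T ^ (2 * d)| ≤ C * T ^ d * Real.log T ^ (2 * d - 1)) ∧
      HasProd (fun p : Nat.Primes => ∑' v : {v : Fin (2 * d) → ℤ // ∀ i, ∑ j, L j i * v j = 0},
        ((p : ℕ) : ℝ) ^ (-(((∑ j, |v.1 j| : ℤ) : ℝ)) / 2)) (singularSeries L)) ∧
    ∃ C T₀ : ℝ, 0 < C ∧ 1 < T₀ ∧ ∀ T : ℝ, T₀ ≤ T →
      |(∫ x in {x : ℝ × ℝ | ∀ j : Fin 4, T ≤ x.1 + (j : ℕ) * x.2 ∧ x.1 + (j : ℕ) * x.2 ≤ 2 * T},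
          ∏ j : Fin 4, ‖riemannZeta (1 / 2 + ((x.1 + (j : ℕ) * x.2 : ℝ) : ℂ) * I)‖ ^ 2) -
        singularSeries (fun j : Fin 4 => ![1, ((j : ℕ) : ℤ)]) / 3 * T ^ 2 * Real.log T ^ 4| ≤ C * T ^ 2 * Real.log T ^ 3 := by
  constructor
  · intro d hd L hL
    obtain ⟨n, rfl⟩ : ∃ n, d = n + 1 := ⟨d - 1, by omega⟩
    have hn : 1 ≤ n := by omega
    have hι : Fintype.card (Fin (2 * (n + 1))) = 2 * n + 2 := by
      rw [Fintype.card_fin]
      ring
    have hGP : Pool.Agent.P07318v.GP fun j i => (L j i : ℝ) := by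
      intro σ hσ h
      apply hL σ hσ
      have h1 : (Matrix.of fun i i' => ((L (σ i) i' : ℤ) : ℝ)) = (Matrix.of fun i => L (σ i)).map (Int.castRingHom ℝ) := by
        ext i i'
        rfl
      have h2 : (Matrix.of fun i i' => ((L (σ i) i' : ℤ) : ℝ)).det = (((Matrix.of fun i => L (σ i)).det : ℤ) : ℝ) := by
        rw [h1]
        exact (RingHom.map_det _ _).symm
      have h3 : (((Matrix.of fun i => L (σ i)).det : ℤ) : ℝ) = 0 := by
        rw [← h2]
        exact h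
      exact_mod_cast h3
    have hMT : ∀ y, mainTerm L y = Pool.Agent.P07318v.MT L y := fun y => (Pool.Agent.P07318v.MT_eq L y).symm
    have hSS : singularSeries L = Pool.Agent.P07318v.SS L := (Pool.Agent.P07318v.SS_eq L).symm
    have hf : ∀ κ x, forms L κ x = Pool.Agent.P07318v.pt (fun j i => (L j i : ℝ)) κ x := fun κ x => rfl
    have hlg : ∀ T : ℝ, 64 ≤ T → Pool.Agent.P07318o.lg T ≤ 2 * Real.log T ∧ 0 < Real.log T := by
      intro T hT
      have hlog : 1 ≤ Real.log T := by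
        rw [Real.le_log_iff_exp_le (by linarith)]
        linarith [Real.exp_one_lt_three]
      unfold Pool.Agent.P07318o.lg
      constructor <;> linarith
    refine ⟨?_, ?_, ?_, ?_⟩
    · intro y hy
      have h1 := Pool.Agent.P07318v.mt_summable hn hι L hGP y hy
      have h2 : (fun q : Pool.Agent.P07318v.Ker L => Pool.Agent.P07318v.mt q.1 y) =
          (fun q : Relations L => term q.1 y) ∘ (Pool.Agent.P07318v.eRel L) := by
        funext q
        exact (Pool.Agent.P07318v.trm_eq L q y).symm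
      rw [h2] at h1
      exact (Pool.Agent.P07318v.eRel L).summable_iff.1 h1
    · intro ε hε
      obtain ⟨C, T₀, hC, hT₀, h⟩ := Pool.Agent.P07318v.sub_v hn hι L hGP ε hε
      refine ⟨C * 2 ^ ((n : ℝ) + 1 + ε), T₀, by positivity, by linarith, fun T κ a b hT hab => ?_⟩
      have h1 := h κ a b T hT (fun j => (hab j).1) (fun j => (hab j).2.2) fun j => (hab j).2.1
      simp only [hMT, hf]
      obtain ⟨h2, h3⟩ := hlg T (hT₀.trans hT)
      have hlg0 : 0 ≤ Pool.Agent.P07318o.lg T := by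
        unfold Pool.Agent.P07318o.lg
        linarith
      have h4 : Pool.Agent.P07318o.lg T ^ ((n : ℝ) + 1 + ε) ≤ 2 ^ ((n : ℝ) + 1 + ε) * Real.log T ^ ((n : ℝ) + 1 + ε) := by
        rw [← Real.mul_rpow (by norm_num) h3.le]
        exact Real.rpow_le_rpow hlg0 h2 (by positivity)
      have hT0 : 0 < T := by linarith
      refine h1.trans ?_
      push_cast
      calc C * T ^ (n + 1) * Pool.Agent.P07318o.lg T ^ ((n : ℝ) + 1 + ε)
          ≤ C * T ^ (n + 1) * (2 ^ ((n : ℝ) + 1 + ε) * Real.log T ^ ((n : ℝ) + 1 + ε)) := by gcongr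
        _ = C * 2 ^ ((n : ℝ) + 1 + ε) * T ^ (n + 1) * Real.log T ^ ((n : ℝ) + 1 + ε) := by ring
    · obtain ⟨C, T₀, hC, hT₀, h⟩ := Pool.Agent.P07318v.sing_v hn hι L hGP
      refine ⟨C, T₀, hC, by linarith, fun T a b hT hab => ?_⟩
      have h1 := h a b T hT (fun j => (hab j).1) (fun j => (hab j).2.2) fun j => (hab j).2.1
      simp only [hSS, hf]
      exact h1
    · rw [hSS]
      exact Pool.Agent.P07318v.ss_euler hn hι L hGP
  · obtain ⟨C, T₀, hC, hT₀, h⟩ := Pool.Agent.P07318v.four_ap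
    refine ⟨C, T₀, hC, by linarith, fun T hT => ?_⟩
    have h1 := h T hT
    have hSS : singularSeries (fun j : Fin 4 => ![1, ((j : ℕ) : ℤ)]) = Pool.Agent.P07318v.SS Pool.Agent.P07318v.L4 :=
      (Pool.Agent.P07318v.SS_eq Pool.Agent.P07318v.L4).symm
    rw [hSS]
    exact h1

end Pool.Agent.Results.MP_07318d_nt.LinearPatterns
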