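import Pool.Agent.Lib.P07318h.Fin

/-!
# Shifted moments of the Riemann zeta function of every order, one shift arbitrary and the others in short boxes

For every `k = n + 1 ≥ 2` and every `δ > 0`, for every `α_0 ∈ [T, 2T]` and all `(α_1, …, α_n)` in any box of side
`H ≥ T^((n-1)/(3n) + δ)` with base point in `[T, 2T]^n`, outside a set of measure at most `C H^n T^(-η)`, the shifted `2k`-th
moment `∫_0^V ∏_{j ≤ n} |ζ(1/2 + i (t + α_j))|² dt` on the critical line equals the integral of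
the main term (the terms without oscillation of the recipe of Conrey, Farmer, Keating, Rubinstein
and Snaith) up to `C T^(1-η)`, for all `0 ≤ V ≤ T` at once. In particular the side of the boxes may be `T^δ` for `k = 2`, `T^(1/6+δ)` for `k = 3`
and `T^(1/3)` for every `k`.
-/

set_option autoImplicit false

namespace Pool.Agent.Results.MP_07318d_nt.ShortBoxes

open MeasureTheory Complex

/-- `e(θ) = exp(2π i θ)` -/
noncomputable def e (θ : ℝ) : ℂ := Complex.exp (2 * Real.pi * I * θ)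

/-- The Euler factor at `p` of `A_k(z_1, …, z_k, z'_1, …, z'_k)` as in the problem file
(`z'_j` stands for `z_{k+j}`). -/
noncomputable def eulerFactor {k : ℕ} (z z' : Fin k → ℂ) (p : ℕ) : ℂ :=
  (∏ l, ∏ j, (1 - (p : ℂ) ^ (-1 - z l + z' j))) *
    ∫ θ in (0:ℝ)..1, ∏ j, ((1 - e θ / (p : ℂ) ^ (1 / 2 + z j))⁻¹ *
      (1 - e (-θ) / (p : ℂ) ^ (1 / 2 - z' j))⁻¹)

/-- the Euler product `A_k` -/
noncomputable def A {k : ℕ} (z z' : Fin k → ℂ) : ℂ := ∏' p : Nat.Primes, eulerFactor z z' p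

/-- the function `G = A_k ∏_{i,j} ζ(1 + z_i - z_{k+j})` -/
noncomputable def G {k : ℕ} (z z' : Fin k → ℂ) : ℂ :=
  A z z' * ∏ i, ∏ j, riemannZeta (1 + z i - z' j)

/-- The main term at the heights `x_1, …, x_k`:
`(π i)^(-k) ∮_{|w_1| = 1/8} … ∮_{|w_k| = 1/8} G(w_1 + i x_1, …, w_k + i x_k, -w_1 + i x_1, …, -w_k + i x_k)
∏_j (x_j/2π)^(w_j) dw_j / w_j`, i.e. the sum of the residues of the recipe for the unshifted pairs
`(z_j, z_{k+j})` at the heights `x_j`. -/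
noncomputable def mainTerm {k : ℕ} (x : Fin k → ℝ) : ℂ :=
  ((Real.pi * I) ^ k)⁻¹ * ∯ w in T(0, fun _ => 1 / 8),
    G (fun j => w j + x j * I) (fun j => -w j + x j * I) *
      ∏ j, (((x j / (2 * Real.pi) : ℝ) : ℂ) ^ (w j) / w j)

theorem result :
    ∀ (n : ℕ) (δ : ℝ), 1 ≤ n → 0 < δ → ∃ C η : ℝ, 0 < C ∧ 0 < η ∧ ∀ T H : ℝ, 1 ≤ T →
      T ^ (((n : ℝ) - 1) / (3 * n) + δ) ≤ H → H ≤ T → ∀ α₀ : ℝ, T ≤ α₀ → α₀ ≤ 2 * T → ∀ β : Fin n → ℝ,
      (∀ j, T ≤ β j) → (∀ j, β j ≤ 2 * T) →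
      volume {α | α ∈ Set.Icc β (fun j => β j + H) ∧ ∃ V ∈ Set.Icc 0 T,
        C * T ^ (1 - η) <
        ‖∫ t in (0:ℝ)..V, (((∏ j, ‖riemannZeta (1 / 2 +
            ((t + (Fin.cons α₀ α : Fin (n + 1) → ℝ) j : ℝ) : ℂ) * I)‖ ^ 2 : ℝ) : ℂ) -
          mainTerm (fun j => t + (Fin.cons α₀ α : Fin (n + 1) → ℝ) j))‖} ≤
        ENNReal.ofReal (C * H ^ n * T ^ (-η)) := by
  intro n δ hn hδ
  exact Pool.Agent.P07318h.short_boxes n hn δ hδ

end Pool.Agent.Results.MP_07318d_nt.ShortBoxes
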