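import Pool.Agent.Lib.P07318s.FinalF
import Pool.Agent.Lib.P07318s.LowFinal
import Pool.Agent.Lib.P07318s.HiFinal
import Pool.Agent.Lib.P07318s.TwoFinal

/-!
# Shifted moments of every order over short segments, for almost all shifts: the exact exponent

For every `k ≥ 1` and `ε > 0` and for almost all `k`-tuples of shifts `(α_1, …, α_k)` in any box of side
`H ∈ [T^(1/2), T]` with base point in `[T, 2T]^k`, the shifted `2k`-th moment `∫_0^V ∏_j |ζ(1/2 + i (t + α_j))|² dt`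
equals the integral of the main term (the terms without oscillation of the recipe of Conrey, Farmer, Keating,
Rubinstein and Snaith) up to `C L^(1/2) T^ε (T/H)^(k/2)`, for all `0 ≤ V ≤ L`, for every `1 ≤ L ≤ T`.
The exponent `1/2` of the length `L` is exact: for `k ≥ 3` and all `1 ≤ L ≤ T^(1-δ)` (for `k = 2`: `L ≤ T^(2/3-δ)`, for
`k = 1`: `L ≤ T^(1/50)`) the difference for `V = L` exceeds `L^(1/2) T^(-ε)` for a set of shifts of measure at
least `T^(k-ε)` in every box of side `T`.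
-/

set_option autoImplicit false

namespace Pool.Agent.Results.MP_07318d_nt.ShortSegments

open MeasureTheory Complex

/-- `e(θ) = exp(2π i θ)` -/
noncomputable def e (θ : ℝ) : ℂ := Complex.exp (2 * Real.pi * I * θ)

/-- The Euler factor at `p` of `A_k(z_1, …, z_k, z'_1, …, z'_k)` as in the problem file
(`z'_j` stands for `z_{k+j}`). -/
noncomputable def eulerFactor {k : ℕ} (z z' : Fin k → ℂ) (p : ℕ) : ℂ :=
  (∏ l, ∏ j, (1 - (p : ℂ) ^ (-1 - z l + z' j))) *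
    ∫ θ in (0:ℝ)..1, ∏ j, ((1 - e θ / (p : ℂ) ^ (1 / 2 + z j))⁻¹ *
      (1 - e (-θ) / (p : ℂ) ^ (1 / 2 - z' j))⁻¹)

/-- the Euler product `A_k` -/
noncomputable def A {k : ℕ} (z z' : Fin k → ℂ) : ℂ := ∏' p : Nat.Primes, eulerFactor z z' p

/-- the function `G = A_k ∏_{i,j} ζ(1 + z_i - z_{k+j})` -/
noncomputable def G {k : ℕ} (z z' : Fin k → ℂ) : ℂ :=
  A z z' * ∏ i, ∏ j, riemannZeta (1 + z i - z' j)

/-- The main term at the heights `x_1, …, x_k`: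
`(π i)^(-k) ∮_{|w_1| = 1/8} … ∮_{|w_k| = 1/8} G(w_1 + i x_1, …, w_k + i x_k, -w_1 + i x_1, …, -w_k + i x_k)
∏_j (x_j/2π)^(w_j) dw_j / w_j`, i.e. the sum of the residues of the recipe for the unshifted pairs
`(z_j, z_{k+j})` at the heights `x_j`. -/
noncomputable def mainTerm {k : ℕ} (x : Fin k → ℝ) : ℂ :=
  ((Real.pi * I) ^ k)⁻¹ * ∯ w in T(0, fun _ => 1 / 8),
    G (fun j => w j + x j * I) (fun j => -w j + x j * I) *
      ∏ j, (((x j / (2 * Real.pi) : ℝ) : ℂ) ^ (w j) / w j)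

/-- the remainder: the integral over `[0, V]` of the product of the `|ζ(1/2 + i (t + α_j))|²` minus the main term -/
noncomputable def remainder {k : ℕ} (α : Fin k → ℝ) (V : ℝ) : ℂ :=
  ∫ t in (0:ℝ)..V, (((∏ j, ‖riemannZeta (1 / 2 + ((t + α j : ℝ) : ℂ) * I)‖ ^ 2 : ℝ) : ℂ) -
    mainTerm (fun j => t + α j))

/-- the exponent of the range of the lower bound -/
noncomputable def expo (k : ℕ) : ℝ := if k = 1 then 1 / 50 else if k = 2 then 2 / 3 else 1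

theorem result : ∀ k : ℕ, 1 ≤ k → ∀ ε : ℝ, 0 < ε →
    (∃ C η : ℝ, 0 < C ∧ 0 < η ∧ ∀ T L H : ℝ, 1 ≤ L → L ≤ T → T ^ (1 / 2 : ℝ) ≤ H → H ≤ T →
      ∀ β : Fin k → ℝ, (∀ j, T ≤ β j) → (∀ j, β j ≤ 2 * T) →
      volume {α | α ∈ Set.Icc β (fun j => β j + H) ∧ ∃ V ∈ Set.Icc 0 L,
        C * L ^ (1 / 2 : ℝ) * T ^ ε * (T / H) ^ ((k : ℝ) / 2) < ‖remainder α V‖} ≤
        ENNReal.ofReal (C * H ^ k * T ^ (-η))) ∧
    (∀ δ : ℝ, 0 < δ → ∃ T₀ : ℝ, 1 ≤ T₀ ∧ ∀ T L : ℝ, T₀ ≤ T → 1 ≤ L → L ≤ T ^ (expo k - δ) →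
      ∀ β : Fin k → ℝ, (∀ j, T ≤ β j) → (∀ j, β j ≤ 2 * T) →
      ENNReal.ofReal (T ^ k * T ^ (-ε)) ≤
        volume {α | α ∈ Set.Icc β (fun j => β j + T) ∧ L ^ (1 / 2 : ℝ) * T ^ (-ε) < ‖remainder α L‖}) := by
  intro k hk ε hε
  refine ⟨Pool.Agent.P07318s.final_f k ε hε, ?_⟩
  intro δ hδ
  rcases k with _ | _ | _ | n
  · omega
  · obtain ⟨T₀, hT₀, h⟩ := Pool.Agent.P07318s.low_final 0 ε hε
    refine ⟨T₀, hT₀, fun T L hT hL hLT β h1 h2 => h T L β hT hL ?_ h1 h2⟩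
    have e : expo (0 + 1) = 1 / 50 := by simp [expo]
    rw [e] at hLT
    exact hLT.trans (Real.rpow_le_rpow_of_exponent_le (hT₀.trans hT) (by linarith))
  · obtain ⟨T₀, hT₀, h⟩ := Pool.Agent.P07318s.low_final_two δ ε hδ hε
    refine ⟨T₀, hT₀, fun T L hT hL hLT β h1 h2 => h T L β hT hL ?_ h1 h2⟩
    have e : expo (0 + 1 + 1) = 2 / 3 := by simp [expo]
    rw [e] at hLT
    exact hLT
  · obtain ⟨T₀, hT₀, h⟩ := Pool.Agent.P07318s.low_final_hi (n + 2) (by omega) δ ε hδ hε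
    refine ⟨T₀, hT₀, fun T L hT hL hLT β h1 h2 => h T L β hT hL ?_ h1 h2⟩
    have e : expo (n + 1 + 1 + 1) = 1 := by simp [expo]
    rw [e] at hLT
    exact hLT

end Pool.Agent.Results.MP_07318d_nt.ShortSegments
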